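import Pool.Agent.K1H70.KR.Stm

set_option autoImplicit false

/-! # Determinants of words in several matrices: interface

Owner helper70.  `A_b` (`b : α`) generic matrices of size `m`, of weights `ω b`, `v_l` (`l : ρ`) generic
vectors, `d l` numbers, `T = {(w, l) : w a word in the A_b of weight < d l}`, `|T| = m`,
`f = det (A_w v_l)_{(w, l) ∈ T}`.  Goal: zeta functions at all primes, and the Bernstein-Sato polynomial. -/

namespace Pool.Agent.K1H70.KG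

open MvPolynomial Pool.Agent.K1H70.KR

/-- the variables: `(a, inl (b, c))` is the entry `(a, c)` of `A_b`, `(a, inr l)` the entry `a` of `v_l` -/
abbrev V (α ρ : Type) (m : ℕ) : Type := Fin m × ((α × Fin m) ⊕ ρ)

/-- the pairs of a word of weight less than `d l` and an index `l` -/
abbrev T {α ρ : Type} (ω : α → ℕ) (d : ρ → ℕ) : Type :=
  {t : List α × ρ // (t.1.map ω).sum < d t.2}

section

variable {R : Type} [CommRing R] {α ρ : Type} {m : ℕ}

/-- the matrix `A_b` of the data -/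
def mA (x : V α ρ m → R) (b : α) : Matrix (Fin m) (Fin m) R :=
  Matrix.of fun a c => x (a, Sum.inl (b, c))

/-- the vector `v_l` of the data -/
def mv (x : V α ρ m → R) (l : ρ) : Fin m → R := fun a => x (a, Sum.inr l)

/-- the vector `A_{b_1} (A_{b_2} ⋯ (A_{b_k} v_l))` for the word `[b_1, …, b_k]` -/
def wv (x : V α ρ m → R) (w : List α) (l : ρ) : Fin m → R :=
  w.foldr (fun b y => (mA x b).mulVec y) (mv x l)

/-- the determinant with the rows `A_w v_l`, `(w, l) ∈ T`, in the order `e` -/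
def fdet (ω : α → ℕ) (d : ρ → ℕ) (e : T ω d ≃ Fin m) (x : V α ρ m → R) : R :=
  (Matrix.of fun k a : Fin m => wv x (e.symm k).1.1 (e.symm k).1.2 a).det

/-- the action of `G` (with the inverse `Gi`) and of scalars:
`A_b ↦ u_b G A_b G⁻¹`, `v_l ↦ z_l G v_l` -/
def act (G Gi : Matrix (Fin m) (Fin m) R) (u : α → R) (z : ρ → R) (x : V α ρ m → R) : V α ρ m → R
  | (a, Sum.inl (b, c)) => u b * (G * mA x b * Gi) a c
  | (a, Sum.inr l) => z l * G.mulVec (mv x l) a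

/-- the factor of the determinant for the scalars -/
def chi (ω : α → ℕ) (d : ρ → ℕ) (e : T ω d ≃ Fin m) (u : α → R) (z : ρ → R) : R :=
  ∏ k : Fin m, (((e.symm k).1.1.map u).prod * z (e.symm k).1.2)

end

/-- the index set of the vectors after the step: `v_j` is replaced by the first columns of the `A_b` -/
abbrev Nx (α : Type) {ρ : Type} (j : ρ) : Type := {l : ρ // l ≠ j} ⊕ α

/-- the numbers after the step -/
def dn {α ρ : Type} (ω : α → ℕ) (d : ρ → ℕ) (j : ρ) : Nx α j → ℕ :=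
  Sum.elim (fun l => d l.1) fun b => d j - ω b

/-- the data of the quotient by `v_j = e_0` -/
def nx {R α ρ : Type} {m : ℕ} (j : ρ) (x : V α ρ (m + 1) → R) : V α (Nx α j) m → R
  | (a, Sum.inl (b, c)) => x (a.succ, Sum.inl (b, c.succ))
  | (a, Sum.inr (Sum.inl l)) => x (a.succ, Sum.inr l.1)
  | (a, Sum.inr (Sum.inr b)) => x (a.succ, Sum.inl (b, 0))

/-- **Q1 (the step).** -/
def S_DET : Prop := ∀ (α ρ : Type) (m : ℕ) (ω : α → ℕ) (d : ρ → ℕ) (e : T ω d ≃ Fin (m + 1)) (j : ρ),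
  0 < d j → (∀ l, d l ≤ d j) → ∀ e' : T ω (dn ω d j) ≃ Fin m,
  ∃ ε : ℤ, (ε = 1 ∨ ε = -1) ∧ ∀ (R : Type) [CommRing R] (x : V α ρ (m + 1) → R),
    (∀ a, x (a, Sum.inr j) = if a = 0 then 1 else 0) →
    fdet ω d e x = (ε : R) * fdet ω (dn ω d j) e' (nx j x)

/-- the number of words of weight less than `n` -/
noncomputable def nw {α : Type} (ω : α → ℕ) (n : ℕ) : ℕ := Nat.card {w : List α // (w.map ω).sum < n}

open Classical in
/-- the vector field of the elementary matrix `E_{pq}`: `δ v_l = E_{pq} v_l`, `δ A_b = [E_{pq}, A_b]` -/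
noncomputable def Mpq {α ρ : Type} {m : ℕ} (p q : Fin m) (u w : V α ρ m) : ℝ :=
  (if u.1 = q ∧ w.1 = p ∧ u.2 = w.2 then 1 else 0) -
    if u.1 = w.1 ∧ ∃ b, u.2 = Sum.inl (b, p) ∧ w.2 = Sum.inl (b, q) then 1 else 0

/-- **Q2 (invariance and degree).** -/
def S_INV : Prop := ∀ (α ρ : Type) [Fintype α] [Fintype ρ] (m : ℕ) (ω : α → ℕ) (d : ρ → ℕ)
  (e : T ω d ≃ Fin m),
  (∀ p q : Fin m, p ≠ q →
    lin (Mpq p q) (fdet ω d e (X : V α ρ m → MvPolynomial (V α ρ m) ℂ)) = 0) ∧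
  ∀ j : ρ, (∑ a : Fin m, gen (Sum.inl (a, Sum.inr j)) * gen (Sum.inr (a, Sum.inr j)) :
    Module.End ℂ (MvPolynomial (V α ρ m) ℂ)) (fdet ω d e X) = (nw ω (d j) : ℂ) • fdet ω d e X

/-- **Q3 (equivariance).** -/
def S_ACT : Prop := ∀ (R : Type) [CommRing R] (α ρ : Type) (m : ℕ) (ω : α → ℕ) (d : ρ → ℕ)
  (e : T ω d ≃ Fin m),
  (∀ (G Gi : Matrix (Fin m) (Fin m) R) (u : α → R) (z : ρ → R) (x : V α ρ m → R), Gi * G = 1 →
    fdet ω d e (act G Gi u z x) = G.det * chi ω d e u z * fdet ω d e x) ∧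
  ∀ (x y : V α ρ m → R) (j : ρ) (c : R), (∀ b, mA y b = mA x b) → mv y j = c • mv x j →
    (∀ l, l ≠ j → mv y l = mv x l) → fdet ω d e y = c ^ nw ω (d j) * fdet ω d e x

/-- **Q4 (linear substitutions and the Fischer pairing).** -/
def S_SUB : Prop := ∀ (σ : Type) [Fintype σ] (L : σ → σ → ℂ) (g h : MvPolynomial σ ℂ),
  fis (aeval (fun u => ∑ w, C (L u w) * X w) g) h =
    fis g (aeval (fun u => ∑ w, C (L w u) * X w : σ → MvPolynomial σ ℂ) h)

/-- **Q5 (uniqueness of the relative invariant).** -/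
def S_UNQ : Prop := ∀ (α ρ : Type) [Fintype α] [Fintype ρ] (m : ℕ) (ω : α → ℕ) (d : ρ → ℕ)
  (e : T ω d ≃ Fin m) (n : ℕ) (h : MvPolynomial (V α ρ m) ℂ),
  (∀ (G Gi : Matrix (Fin m) (Fin m) ℂ) (u : α → ℂ) (z : ρ → ℂ) (x : V α ρ m → ℂ), Gi * G = 1 →
    (∀ b, u b ≠ 0) → (∀ l, z l ≠ 0) →
    eval (act G Gi u z x) h = (G.det * chi ω d e u z) ^ n * eval x h) →
  ∃ c : ℂ, h = C c * (fdet ω d e X) ^ n

/-- the weight of an element of `T` -/
noncomputable def cT {α ρ : Type} (ω : α → ℕ) (d : ρ → ℕ) (t : T ω d) : ℕ :=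
  nw ω (d t.1.2 - (t.1.1.map ω).sum)

/-- `c` lists the numbers `cT t`, `t ∈ T`, in decreasing order -/
def Prof {α ρ : Type} {m : ℕ} (ω : α → ℕ) (d : ρ → ℕ) (e : T ω d ≃ Fin m) (c : Fin m → ℕ) : Prop :=
  Antitone c ∧ Finset.univ.val.map c = Finset.univ.val.map fun k => cT ω d (e.symm k)

/-- **Q6 (the profile).** -/
def S_PRF : Prop := ∀ (α ρ : Type) (m : ℕ) (ω : α → ℕ) (d : ρ → ℕ) (e : T ω d ≃ Fin m),
  (∃ c : Fin m → ℕ, Prof ω d e c) ∧ ∀ c : Fin m → ℕ, Prof ω d e c → (∀ k, 0 < c k) ∧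
    ∀ (m' : ℕ) (hm : m = m' + 1), ∃ j : ρ, c ⟨0, by omega⟩ = nw ω (d j) ∧ 0 < d j ∧
      (∀ l, d l ≤ d j) ∧ ∃ e' : T ω (dn ω d j) ≃ Fin m',
        Prof ω (dn ω d j) e' fun k => c ⟨k + 1, by omega⟩

end Pool.Agent.K1H70.KG
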