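import Pool.Agent.K1H70.KR.Step3

set_option autoImplicit false

/-! # The quotients of the factorials -/

namespace Pool.Agent.K1H70.KG

open Pool.Agent.K1H70.KR

theorem Bf_fac (m : ℕ) (c : Fin m → ℕ) (s : ℕ) :
    (∏ k : Fin m, (((c k * (s + 1) + (m - (k : ℕ) - 1)).factorial : ℂ) /
      (m - (k : ℕ) - 1).factorial)) = (Bf m c).eval (s : ℂ) *
      ∏ k : Fin m, (((c k * s + (m - (k : ℕ) - 1)).factorial : ℂ) / (m - (k : ℕ) - 1).factorial) := by
  rw [Bf, Polynomial.eval_prod, ← Finset.prod_mul_distrib]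
  refine Finset.prod_congr rfl fun k _ => ?_
  rw [Polynomial.eval_prod]
  have h6 : (c k * (s + 1) + (m - (k : ℕ) - 1)).factorial =
      (c k * s + (m - (k : ℕ) - 1)).factorial * ∏ j ∈ Finset.range (c k),
        (c k * s + (m - (k : ℕ) + j)) := by
    have h7 := Nat.factorial_mul_ascFactorial (c k * s + (m - (k : ℕ) - 1)) (c k)
    rw [Nat.ascFactorial_eq_prod_range] at h7
    rw [show c k * (s + 1) + (m - (k : ℕ) - 1) = c k * s + (m - (k : ℕ) - 1) + c k by ring, ← h7]
    congr 1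
    refine Finset.prod_congr rfl fun j _ => ?_
    have := k.2
    omega
  rw [h6]
  push_cast
  have h8 : ∀ j ∈ Finset.range (c k), (Polynomial.C (c k : ℂ) * Polynomial.X +
      Polynomial.C (((m - (k : ℕ) : ℕ) : ℂ) + (j : ℂ))).eval (s : ℂ) =
      (c k : ℂ) * s + (((m - (k : ℕ) : ℕ) : ℂ) + j) := by
    intro j _
    rw [Polynomial.eval_add, Polynomial.eval_mul, Polynomial.eval_C, Polynomial.eval_X,
      Polynomial.eval_C]
  rw [Finset.prod_congr rfl h8]
  ring

end Pool.Agent.K1H70.KG
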