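import Pool.Agent.K1H70.KR.Step
import Pool.Agent.K1H70.KR.Step3
import Pool.Agent.K1H70.KG.Stm

set_option autoImplicit false
set_option linter.unusedSectionVars false
set_option linter.unusedVariables false

/-! # Words in several matrices: functional equations -/

namespace Pool.Agent.K1H70.KG

open MvPolynomial Pool.Agent.K1H70.KR

section hom

variable {R S : Type} [CommRing R] [CommRing S] {α ρ : Type} {m : ℕ}

theorem wv_map (φ : R →+* S) (x : V α ρ m → R) (w : List α) (l : ρ) :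
    wv (fun u => φ (x u)) w l = fun a => φ (wv x w l a) := by
  induction w with
  | nil => rfl
  | cons b w ih =>
    change (mA (fun u => φ (x u)) b).mulVec (wv (fun u => φ (x u)) w l) =
      fun a => φ ((mA x b).mulVec (wv x w l) a)
    rw [ih]
    have h1 : mA (fun u => φ (x u)) b = (mA x b).map φ := rfl
    funext a
    rw [h1]
    exact (RingHom.map_mulVec φ (mA x b) (wv x w l) a).symm

theorem fdet_map (φ : R →+* S) (ω : α → ℕ) (d : ρ → ℕ) (e : T ω d ≃ Fin m) (x : V α ρ m → R) :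
    fdet ω d e (fun u => φ (x u)) = φ (fdet ω d e x) := by
  unfold fdet
  rw [RingHom.map_det]
  congr 1
  ext k a
  rw [Matrix.of_apply, wv_map]
  rfl

end hom

variable {α ρ : Type} {m : ℕ}

/-- the polynomial, with complex coefficients -/
noncomputable def FC (ω : α → ℕ) (d : ρ → ℕ) (e : T ω d ≃ Fin m) : MvPolynomial (V α ρ m) ℂ :=
  fdet ω d e X

/-- the variables of the quotient -/
def io (j : ρ) : V α (Nx α j) m → V α ρ (m + 1)
  | (a, Sum.inl (b, c)) => (a.succ, Sum.inl (b, c.succ))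
  | (a, Sum.inr (Sum.inl l)) => (a.succ, Sum.inr l.1)
  | (a, Sum.inr (Sum.inr b)) => (a.succ, Sum.inl (b, 0))

theorem io_inj (j : ρ) : Function.Injective (io j : V α (Nx α j) m → _) := by
  intro u w h
  obtain ⟨a, ⟨b, c⟩ | l | b⟩ := u <;> obtain ⟨a', ⟨b', c'⟩ | l' | b'⟩ := w <;>
    simp only [io, Prod.mk.injEq, Sum.inl.injEq, Sum.inr.injEq, Fin.succ_inj, reduceCtorEq,
      and_false] at h
  · obtain ⟨h1, h2, h3⟩ := h
    rw [h1, h2, h3]
  · exact absurd h.2.2 (Fin.succ_ne_zero c)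
  · obtain ⟨h1, h2⟩ := h
    rw [h1, Subtype.ext h2]
  · exact absurd h.2.2.symm (Fin.succ_ne_zero c')
  · obtain ⟨h1, h2, -⟩ := h
    rw [h1, h2]

/-- the variables of `v_j` -/
def vj (α : Type) (m : ℕ) (j : ρ) (a : Fin m) : V α ρ m := (a, Sum.inr j)

theorem vj_inj (j : ρ) : Function.Injective (vj α m j) := fun a b h => congrArg Prod.fst h

theorem io_out (j : ρ) (u : V α (Nx α j) m) : io j u ∉ Set.range (vj α (m + 1) j) := by
  rintro ⟨a, ha⟩
  have h3 := congrArg Prod.snd ha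
  obtain ⟨a, ⟨b, c⟩ | l | b⟩ := u
  · simp only [io, vj] at h3
    cases h3
  · simp only [io, vj] at h3
    exact l.2 (Sum.inr_injective h3).symm
  · simp only [io, vj] at h3
    cases h3

/-- **The restriction of the determinant to the slice.** -/
theorem sl_fdet (hdet : S_DET) (ω : α → ℕ) (d : ρ → ℕ) (e : T ω d ≃ Fin (m + 1)) (j : ρ)
    (hj : 0 < d j) (hmax : ∀ l, d l ≤ d j) (e' : T ω (dn ω d j) ≃ Fin m) :
    ∃ ε : ℂ, ε * ε = 1 ∧ sl (vj α (m + 1) j) (FC ω d e) =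
      ε • rename (io j) (FC ω (dn ω d j) e') := by
  obtain ⟨ε, hε, hstep⟩ := hdet α ρ m ω d e j hj hmax e'
  refine ⟨(ε : ℂ), by rcases hε with rfl | rfl <;> norm_num, ?_⟩
  have h1 := hstep (MvPolynomial (V α ρ (m + 1)) ℂ)
    (fun u => sl (vj α (m + 1) j) (X u)) (by
      intro a
      by_cases ha : a = 0
      · subst ha
        rw [if_pos rfl]
        exact K1H31.KR.sl_zero (vj α (m + 1) j)
      · rw [if_neg ha]
        obtain ⟨b, rfl⟩ := Fin.exists_succ_eq.2 ha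
        exact K1H31.KR.sl_succ (vj α (m + 1) j) (vj_inj j) b)
  have h2 : nx j (fun u => sl (vj α (m + 1) j) (X u : MvPolynomial (V α ρ (m + 1)) ℂ)) =
      fun u => rename (io j) (X u : MvPolynomial (V α (Nx α j) m) ℂ) := by
    funext u
    rw [rename_X, ← K1H31.KR.sl_out (vj α (m + 1) j) (io_out j u)]
    obtain ⟨a, ⟨b, c⟩ | l | b⟩ := u <;> rfl
  rw [h2] at h1
  have h3 := fdet_map (sl (vj α (m + 1) j)).toRingHom ω d e X
  have h4 := fdet_map (rename (io j) : MvPolynomial (V α (Nx α j) m) ℂ →ₐ[ℂ] _).toRingHom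
    ω (dn ω d j) e' X
  refine h3.symm.trans (h1.trans ?_)
  rw [Algebra.smul_def, algebraMap_eq, map_intCast]
  congr 1

theorem Mpq_tr (p q : Fin m) : (fun u w : V α ρ m => Mpq p q w u) = Mpq q p := by
  classical
  funext u w
  unfold Mpq
  congr 1
  · refine if_congr ?_ rfl rfl
    constructor
    · rintro ⟨h1, h2, h3⟩
      exact ⟨h2, h1, h3.symm⟩
    · rintro ⟨h1, h2, h3⟩
      exact ⟨h2, h1, h3.symm⟩
  · refine if_congr ?_ rfl rfl
    constructor
    · rintro ⟨h1, b, h2, h3⟩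
      exact ⟨h1.symm, b, h3, h2⟩
    · rintro ⟨h1, b, h2, h3⟩
      exact ⟨h1.symm, b, h3, h2⟩

theorem adm (j : ρ) : Adm (vj α (m + 1) j) (fun a : Fin m =>
    (Mpq a.succ 0 : V α ρ (m + 1) → _ → ℝ)) := by
  classical
  constructor
  · intro a u b
    unfold Mpq vj
    have h1 : ¬ (u.1 = b ∧ ∃ b' : α, u.2 = Sum.inl (b', a.succ) ∧
        (Sum.inr j : (α × Fin (m + 1)) ⊕ ρ) = Sum.inl (b', 0)) := by
      rintro ⟨-, b', -, h⟩
      cases h
    simp only
    rw [if_neg h1, sub_zero]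
    have h2 : (u.1 = 0 ∧ b = a.succ ∧ u.2 = Sum.inr j) ↔
        (u = ((0 : Fin (m + 1)), (Sum.inr j : (α × Fin (m + 1)) ⊕ ρ)) ∧ b = a.succ) := by
      constructor
      · rintro ⟨h1, h2, h3⟩
        exact ⟨Prod.ext h1 h3, h2⟩
      · rintro ⟨h1, h2⟩
        rw [h1]
        exact ⟨rfl, h2, rfl⟩
    by_cases h3 : u = ((0 : Fin (m + 1)), (Sum.inr j : (α × Fin (m + 1)) ⊕ ρ)) ∧ b = a.succ
    · rw [if_pos h3, if_pos (h2.2 h3)]
    · rw [if_neg h3, if_neg fun h => h3 (h2.1 h)]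
  · intro a b w
    unfold Mpq vj
    have h1 : ¬ (b = w.1 ∧ ∃ b' : α, (Sum.inr j : (α × Fin (m + 1)) ⊕ ρ) = Sum.inl (b', a.succ) ∧
        w.2 = Sum.inl (b', 0)) := by
      rintro ⟨-, b', h, -⟩
      cases h
    simp only
    rw [if_neg h1, sub_zero]
    have h2 : (b = 0 ∧ w.1 = a.succ ∧ Sum.inr j = w.2) ↔
        (b = 0 ∧ w = (a.succ, (Sum.inr j : (α × Fin (m + 1)) ⊕ ρ))) := by
      constructor
      · rintro ⟨h1, h2, h3⟩
        exact ⟨h1, Prod.ext h2 h3.symm⟩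
      · rintro ⟨h1, h2⟩
        rw [h2]
        exact ⟨h1, rfl, rfl⟩
    by_cases h3 : b = 0 ∧ w = (a.succ, (Sum.inr j : (α × Fin (m + 1)) ⊕ ρ))
    · rw [if_pos h3, if_pos (h2.2 h3)]
    · rw [if_neg h3, if_neg fun h => h3 (h2.1 h)]

theorem fc_step [Fintype α] [Fintype ρ] (hdet : S_DET) (hinv : S_INV) (ω : α → ℕ) (d : ρ → ℕ)
    (e : T ω d ≃ Fin (m + 1)) (j : ρ) (hj : 0 < d j) (hmax : ∀ l, d l ≤ d j)
    (e' : T ω (dn ω d j) ≃ Fin m) (h : PiP (FC ω (dn ω d j) e')) :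
    PiP (FC ω d e) ∧ ∀ n : ℕ, fis (FC ω d e ^ n) (FC ω d e ^ n) =
        (((nw ω (d j) * n + m).factorial : ℂ) / m.factorial) *
          fis (FC ω (dn ω d j) e' ^ n) (FC ω (dn ω d j) e' ^ n) := by
  classical
  obtain ⟨ε, hε, hsl⟩ := sl_fdet hdet ω d e j hj hmax e'
  set F := FC ω d e with hF
  set F' := FC ω (dn ω d j) e' with hF'
  obtain ⟨hi1, hi2⟩ := hinv α ρ (m + 1) ω d e
  have hE : Eu (vj α (m + 1) j) F = (nw ω (d j) : ℂ) • F := hi2 j
  have h1 : ∀ a : Fin m, lin (Mpq a.succ 0) F = 0 := fun a =>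
    hi1 a.succ 0 (Fin.succ_ne_zero a)
  have h2 : ∀ a : Fin m, lin (fun u w => Mpq a.succ 0 w u) F = 0 := fun a => by
    rw [Mpq_tr]
    exact hi1 0 a.succ (Fin.succ_ne_zero a).symm
  have hn : ∀ n : ℕ, fis (F ^ n) (F ^ n) = (((nw ω (d j) * n + m).factorial : ℂ) / m.factorial) *
      fis (F' ^ n) (F' ^ n) := by
    intro n
    rw [norm_sl (vj α (m + 1) j) _ (vj_inj j) (adm j) (nw ω (d j)) F hE h1 h2 n, hsl, smul_pow,
      ← map_pow (rename (io j)), map_smul, map_smul, LinearMap.smul_apply,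
      K1H24.KR.fis_rename _ (io_inj j), smul_eq_mul, smul_eq_mul, ← mul_assoc (ε ^ n), ← mul_pow, hε,
      one_pow, one_mul]
  refine ⟨?_, hn⟩
  intro Q hQ
  obtain ⟨K, Qi, hQi, hpair⟩ := pair_sl (vj α (m + 1) j) _ (vj_inj j) (adm j) (nw ω (d j)) F hE
    h1 h2 Q hQ
  have h3 : ∀ i, ∃ q : Polynomial ℂ, ∀ n : ℕ, fis (rename (io j) (F' ^ (n + 1)))
      (Qi i (rename (io j) (F' ^ n))) = q.eval (n : ℂ) * fis (F' ^ (n + 1)) (F' ^ (n + 1)) := by
    intro i
    obtain ⟨Q', hQ', h4⟩ := K1H24.KR.t_RED _ _ (io j) (io_inj j) (Qi i) (hQi i)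
    obtain ⟨q, hq⟩ := h Q' hQ'
    exact ⟨q, fun n => by rw [h4, hq]⟩
  choose q hq using h3
  refine ⟨∑ i ∈ Finset.range K, Polynomial.X ^ i * (Polynomial.C ε * q i), fun n => ?_⟩
  rw [hpair, hn, Polynomial.eval_finsetSum, hsl, Finset.mul_sum, Finset.sum_mul]
  refine Finset.sum_congr rfl fun i _ => ?_
  rw [smul_pow, smul_pow, ← map_pow (rename (io j)), ← map_pow (rename (io j)), map_smul, map_smul,
    map_smul, LinearMap.smul_apply, hq, Polynomial.eval_mul, Polynomial.eval_mul,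
    Polynomial.eval_pow, Polynomial.eval_X, Polynomial.eval_C, smul_eq_mul, smul_eq_mul]
  have h5 : ε ^ n * ε ^ n = 1 := by rw [← mul_pow, hε, one_pow]
  rw [pow_succ]
  linear_combination ((((nw ω (d j) * (n + 1) + m).factorial : ℂ) / m.factorial) * (n : ℂ) ^ i * ε *
    ((q i).eval (n : ℂ) * fis (F' ^ (n + 1)) (F' ^ (n + 1)))) * h5

/-- **The pairings with the powers of the determinant.** -/
theorem fc_all (hdet : S_DET) (hinv : S_INV) (hprf : S_PRF) {α : Type} [Fintype α] (ω : α → ℕ) :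
    ∀ (m : ℕ) (ρ : Type) [Fintype ρ] (d : ρ → ℕ) (e : T ω d ≃ Fin m) (c : Fin m → ℕ),
    Prof ω d e c → PiP (FC ω d e) ∧ ∀ n : ℕ, fis (FC ω d e ^ n) (FC ω d e ^ n) =
        ∏ k : Fin m, (((c k * n + (m - (k : ℕ) - 1)).factorial : ℂ) / (m - (k : ℕ) - 1).factorial) := by
  classical
  intro m
  induction m with
  | zero =>
    intro ρ _ d e c hc
    have h1 : FC ω d e = 1 := by
      unfold FC fdet
      exact Matrix.det_fin_zero
    rw [h1]
    constructor
    · intro Q hQ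
      refine ⟨Polynomial.C (fis 1 (Q 1)), fun n => ?_⟩
      rw [one_pow, one_pow, Polynomial.eval_C, fis_one, mul_one]
    · intro n
      rw [one_pow, fis_one]
      simp
  | succ m ih =>
    intro ρ _ d e c hc
    obtain ⟨j, h1, h2, h3, e', h4⟩ := ((hprf α ρ (m + 1) ω d e).2 c hc).2 m rfl
    obtain ⟨h5, h6⟩ := ih _ _ e' _ h4
    obtain ⟨h7, h8⟩ := fc_step hdet hinv ω d e j h2 h3 e' h5
    refine ⟨h7, fun n => ?_⟩
    have h9 : c 0 = nw ω (d j) := h1
    rw [h8, h6, Fin.prod_univ_succ, h9]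
    congr 1
    refine Finset.prod_congr rfl fun k _ => ?_
    rw [Fin.val_succ, Nat.add_sub_add_right]
    rfl

end Pool.Agent.K1H70.KG
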