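import Pool.Agent.K1H70.KG.Step2
import Pool.Agent.K1H70.KG.Bfac

set_option autoImplicit false
set_option linter.unusedSectionVars false
set_option linter.unusedVariables false

/-! # Words in several matrices: the Bernstein-Sato polynomial -/

namespace Pool.Agent.K1H70.KG

open MvPolynomial Pool.Agent.K1H70.KR

/-- nondegeneracy of the Fischer pairing -/
theorem fis_ext {σ : Type} (a b : MvPolynomial σ ℂ) (h : ∀ g, fis a g = fis b g) : a = b := by
  ext α
  have h1 := h (monomial α 1)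
  rw [K1H24.KR.fis_comm, K1H24.KR.fis_comm b, fis_monomial, fis_monomial, one_mul] at h1
  have h2 : (α.prod fun _ k => (k.factorial : ℂ)) ≠ 0 := by
    refine Finset.prod_ne_zero_iff.2 fun i _ => ?_
    change ((α i).factorial : ℂ) ≠ 0
    exact_mod_cast Nat.factorial_ne_zero _
  exact mul_left_cancel₀ h2 h1

/-- operators of the span of the words are in the Weyl algebra -/
theorem mem_weyl {σ : Type} (Q : Module.End ℂ (MvPolynomial σ ℂ)) (hQ : Q ∈ W σ) :
    Q ∈ Pool.Agent.H628R4.TP.weylS σ := by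
  have h1 : W σ ≤ Subalgebra.toSubmodule (Pool.Agent.H628R4.TP.weylS σ) := by
    refine Submodule.span_le.2 ?_
    rintro _ ⟨w, rfl⟩
    change wd w ∈ Pool.Agent.H628R4.TP.weylS σ
    unfold wd
    refine Subalgebra.list_prod_mem _ fun x hx => ?_
    rw [List.mem_map] at hx
    obtain ⟨a, -, rfl⟩ := hx
    rcases a with u | u
    · exact Algebra.subset_adjoin (Or.inl ⟨u, rfl⟩)
    · exact Algebra.subset_adjoin (Or.inr ⟨u, rfl⟩)
  exact h1 hQ

section

variable {α ρ : Type} {m : ℕ}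

open Classical in
/-- the matrix of the linear map `act` -/
noncomputable def LL (G Gi : Matrix (Fin m) (Fin m) ℂ) (u : α → ℂ) (z : ρ → ℂ) :
    V α ρ m → V α ρ m → ℂ
  | (a, Sum.inl (b, c)), (a', Sum.inl (b', c')) => if b' = b then u b * (G a a' * Gi c' c) else 0
  | (a, Sum.inr l), (a', Sum.inr l') => if l' = l then z l * G a a' else 0
  | (_, Sum.inl _), (_, Sum.inr _) => 0
  | (_, Sum.inr _), (_, Sum.inl _) => 0

theorem LL_tr (G Gi : Matrix (Fin m) (Fin m) ℂ) (u : α → ℂ) (z : ρ → ℂ) (v w : V α ρ m) :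
    LL G Gi u z w v = LL G.transpose Gi.transpose u z v w := by
  classical
  obtain ⟨a, ⟨b, c⟩ | l⟩ := v <;> obtain ⟨a', ⟨b', c'⟩ | l'⟩ := w
  · simp only [LL, Matrix.transpose_apply]
    by_cases h : b = b'
    · subst h
      rw [if_pos rfl]
    · rw [if_neg h, if_neg (Ne.symm h)]
  · rfl
  · rfl
  · simp only [LL, Matrix.transpose_apply]
    by_cases h : l = l'
    · subst h
      rw [if_pos rfl]
    · rw [if_neg h, if_neg (Ne.symm h)]

theorem LL_act [Fintype α] [Fintype ρ] (G Gi : Matrix (Fin m) (Fin m) ℂ) (u : α → ℂ) (z : ρ → ℂ)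
    (x : V α ρ m → ℂ) (v : V α ρ m) : ∑ w, LL G Gi u z v w * x w = act G Gi u z x v := by
  classical
  obtain ⟨a, ⟨b, c⟩ | l⟩ := v
  · rw [Fintype.sum_prod_type]
    simp only [Fintype.sum_sum_type, Fintype.sum_prod_type, LL, zero_mul, Finset.sum_const_zero,
      add_zero]
    change _ = u b * (G * mA x b * Gi) a c
    have h1 : ∀ a' : Fin m, ∑ b' : α, ∑ c' : Fin m,
        (if b' = b then u b * (G a a' * Gi c' c) else 0) * x (a', Sum.inl (b', c')) =
        ∑ c' : Fin m, u b * (G a a' * Gi c' c) * x (a', Sum.inl (b, c')) := by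
      intro a'
      rw [Finset.sum_eq_single b]
      · simp
      · intro b' _ hb
        refine Finset.sum_eq_zero fun c' _ => ?_
        rw [if_neg hb, zero_mul]
      · intro h
        exact absurd (Finset.mem_univ b) h
    rw [Finset.sum_congr rfl fun a' _ => h1 a', Matrix.mul_apply, Finset.mul_sum, Finset.sum_comm]
    refine Finset.sum_congr rfl fun c' _ => ?_
    rw [Matrix.mul_apply, Finset.sum_mul, Finset.mul_sum]
    refine Finset.sum_congr rfl fun a' _ => ?_
    change _ = u b * (G a a' * x (a', Sum.inl (b, c')) * Gi c' c)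
    ring
  · rw [Fintype.sum_prod_type]
    simp only [Fintype.sum_sum_type, LL, zero_mul, Finset.sum_const_zero,
      zero_add]
    change _ = z l * ∑ a', G a a' * x (a', Sum.inr l)
    rw [Finset.mul_sum]
    refine Finset.sum_congr rfl fun a' _ => ?_
    rw [Finset.sum_eq_single l]
    · rw [if_pos rfl, mul_assoc]
    · intro l' _ hl
      rw [if_neg hl, zero_mul]
    · intro h
      exact absurd (Finset.mem_univ l) h

variable [Fintype α] [Fintype ρ]

/-- the substitution -/
noncomputable def sb {σ : Type} [Fintype σ] (L : σ → σ → ℂ) : MvPolynomial σ ℂ →ₐ[ℂ] MvPolynomial σ ℂ :=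
  aeval fun u => ∑ w, C (L u w) * X w

theorem eval_sb {σ : Type} [Fintype σ] (L : σ → σ → ℂ) (x : σ → ℂ) (g : MvPolynomial σ ℂ) :
    eval x (sb L g) = eval (fun u => ∑ w, L u w * x w) g := by
  unfold sb
  induction g using MvPolynomial.induction_on with
  | C a => simp
  | add p q hp hq => rw [map_add, map_add, map_add, hp, hq]
  | mul_X p u hp =>
    rw [map_mul, map_mul, map_mul, hp, aeval_X, eval_X, map_sum]
    congr 1
    refine Finset.sum_congr rfl fun w _ => ?_
    rw [map_mul, eval_C, eval_X]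

theorem eval_FC (ω : α → ℕ) (d : ρ → ℕ) (e : T ω d ≃ Fin m) (x : V α ρ m → ℂ) :
    eval x (FC ω d e) = fdet ω d e x := by
  have h := fdet_map (eval x) ω d e X
  unfold FC
  rw [← h]
  congr 1
  funext u
  exact eval_X u

theorem sb_FC (hact : S_ACT) (ω : α → ℕ) (d : ρ → ℕ) (e : T ω d ≃ Fin m)
    (G Gi : Matrix (Fin m) (Fin m) ℂ) (u : α → ℂ) (z : ρ → ℂ) (hG : Gi * G = 1) :
    sb (LL G Gi u z) (FC ω d e) = C (G.det * chi ω d e u z) * FC ω d e := by
  refine MvPolynomial.funext fun x => ?_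
  rw [eval_sb, map_mul, eval_C, eval_FC, eval_FC]
  have h1 : (fun v => ∑ w, LL G Gi u z v w * x w) = act G Gi u z x := by
    funext v
    exact LL_act G Gi u z x v
  rw [h1]
  exact (hact ℂ α ρ m ω d e).1 G Gi u z x hG

/-- **The adjoint of the multiplication by the determinant lowers the powers.** -/
theorem exists_D (hact : S_ACT) (hsub : S_SUB) (hunq : S_UNQ) (ω : α → ℕ) (d : ρ → ℕ)
    (e : T ω d ≃ Fin m) : ∃ D ∈ W (V α ρ m), (∀ g h, fis (FC ω d e * g) h = fis g (D h)) ∧
      ∀ n : ℕ, ∃ c : ℂ, D (FC ω d e ^ (n + 1)) = C c * FC ω d e ^ n := by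
  classical
  obtain ⟨D, hD, hadj⟩ := K1H24.KR.W_adj (K1H24.KR.mulLeft_mem (FC ω d e))
  have hadj' : ∀ g h, fis (FC ω d e * g) h = fis g (D h) := hadj
  refine ⟨D, hD, hadj', fun n => ?_⟩
  set F := FC ω d e with hF
  refine hunq α ρ m ω d e n (D (F ^ (n + 1))) ?_
  intro G Gi u z x hG hu hz
  set χ := G.det * chi ω d e u z with hχ
  have hχ0 : χ ≠ 0 := by
    refine mul_ne_zero ?_ ?_
    · intro h0
      have h1 := congrArg Matrix.det hG
      rw [Matrix.det_mul, h0, mul_zero, Matrix.det_one] at h1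
      exact zero_ne_one h1
    · unfold chi
      refine Finset.prod_ne_zero_iff.2 fun k _ => mul_ne_zero ?_ (hz _)
      refine List.prod_ne_zero ?_
      intro h0
      rw [List.mem_map] at h0
      obtain ⟨b, -, hb⟩ := h0
      exact hu b hb
  have h1 : sb (LL G Gi u z) F = C χ * F := sb_FC hact ω d e G Gi u z hG
  have hGT : Gi.transpose * G.transpose = 1 := by
    rw [← Matrix.transpose_mul, mul_eq_one_comm.1 hG, Matrix.transpose_one]
  have hLT : (fun v w => LL G Gi u z w v) = LL G.transpose Gi.transpose u z := by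
    funext v w
    exact LL_tr G Gi u z v w
  have h2 : sb (fun v w => LL G Gi u z w v) F = C χ * F := by
    rw [hLT, sb_FC hact ω d e _ _ u z hGT, Matrix.det_transpose]
  have h3 : sb (LL G Gi u z) (D (F ^ (n + 1))) = C (χ ^ n) * D (F ^ (n + 1)) := by
    refine fis_ext _ _ fun g => ?_
    have h4 : fis (sb (LL G Gi u z) (D (F ^ (n + 1)))) g =
        fis (D (F ^ (n + 1))) (sb (fun v w => LL G Gi u z w v) g) := hsub _ _ _ _
    have h5 : F * sb (fun v w => LL G Gi u z w v) g =
        C χ⁻¹ * sb (fun v w => LL G Gi u z w v) (F * g) := by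
      rw [map_mul, h2, ← mul_assoc, ← mul_assoc, ← C_mul, inv_mul_cancel₀ hχ0, C_1, one_mul]
    have h6 : fis (sb (fun v w => LL G Gi u z w v) (F * g)) (F ^ (n + 1)) =
        fis (F * g) (sb (LL G Gi u z) (F ^ (n + 1))) :=
      hsub _ (fun v w => LL G Gi u z w v) _ _
    rw [h4, K1H24.KR.fis_comm, ← hadj', h5, ← smul_eq_C_mul, map_smul, LinearMap.smul_apply, h6,
      map_pow, h1, mul_pow, ← C_pow, ← smul_eq_C_mul, ← smul_eq_C_mul, map_smul, map_smul,
      LinearMap.smul_apply, hadj', K1H24.KR.fis_comm g, smul_eq_mul, smul_eq_mul, smul_eq_mul, pow_succ]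
    field_simp
  have h4 : eval (act G Gi u z x) (D (F ^ (n + 1))) = eval x (sb (LL G Gi u z) (D (F ^ (n + 1)))) := by
    rw [eval_sb]
    congr 2
    funext v
    exact (LL_act G Gi u z x v).symm
  rw [h4, h3, map_mul, eval_C]

/-- **The functional equation.** -/
theorem isB_Bf (hdet : S_DET) (hinv : S_INV) (hact : S_ACT) (hsub : S_SUB) (hunq : S_UNQ)
    (hprf : S_PRF) (ω : α → ℕ) (d : ρ → ℕ) (e : T ω d ≃ Fin m) (c : Fin m → ℕ)
    (hc : Prof ω d e c) (κ : ℂ) :
    Pool.Agent.H628R4.TP.IsBFunction (FC ω d e) (Polynomial.C κ * Bf m c) := by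
  obtain ⟨D, hD, hadj, hlow⟩ := exists_D hact hsub hunq ω d e
  obtain ⟨-, hN⟩ := fc_all hdet hinv hprf ω m ρ d e c hc
  refine ⟨Finsupp.single 0 ⟨κ • D, Subalgebra.smul_mem _ (mem_weyl D hD) κ⟩, fun s => ?_⟩
  rw [Finsupp.sum_single_index]
  · obtain ⟨c0, hc0⟩ := hlow s
    have h1 : fis (FC ω d e ^ (s + 1)) (FC ω d e ^ (s + 1)) =
        (Bf m c).eval (s : ℂ) * fis (FC ω d e ^ s) (FC ω d e ^ s) := by
      rw [hN, hN]
      exact Bf_fac m c s
    have h2 : fis (FC ω d e ^ s) (FC ω d e ^ s) ≠ 0 := by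
      rw [hN]
      refine Finset.prod_ne_zero_iff.2 fun k _ => ?_
      exact div_ne_zero (by exact_mod_cast Nat.factorial_ne_zero _)
        (by exact_mod_cast Nat.factorial_ne_zero _)
    have h3 : c0 = (Bf m c).eval (s : ℂ) := by
      have h4 := hadj (FC ω d e ^ s) (FC ω d e ^ (s + 1))
      rw [hc0, ← smul_eq_C_mul, map_smul, smul_eq_mul, ← pow_succ', h1] at h4
      exact (mul_right_cancel₀ h2 h4).symm
    change _ = ((s : ℂ) ^ 0) • (κ • D) (FC ω d e ^ (s + 1))
    rw [pow_zero, one_smul, LinearMap.smul_apply, hc0, h3, Polynomial.eval_mul, Polynomial.eval_C,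
      C_mul, mul_assoc]
    exact (smul_eq_C_mul _ κ).symm
  · change ((s : ℂ) ^ 0) • (0 : Module.End ℂ (MvPolynomial _ ℂ)) _ = 0
    rw [LinearMap.zero_apply, smul_zero]

end

end Pool.Agent.K1H70.KG
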